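import Pool.Agent.Results.MP_9d6213_co.NoHellyNumber

set_option autoImplicit false

namespace Pool.Agent.Results.MP_9d6213_co.PolynomiallyManyPoints

open Pool.Agent.Results.MP_9d6213_co.NoHellyNumber

lemma sin_lower (K l : ℕ) (h1 : 1 ≤ l) (h2 : l ≤ K) :
    2 / ((K : ℝ) + 1) ≤ Real.sin (Real.pi * l / (K + 1)) := by
  have hK : (0 : ℝ) < (K : ℝ) + 1 := by positivity
  have hl : (1 : ℝ) ≤ l := by exact_mod_cast h1
  have hlK : (l : ℝ) ≤ K := by exact_mod_cast h2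
  have hpi := Real.pi_pos
  have key : ∀ y : ℝ, 1 ≤ y → 2 * y ≤ (K : ℝ) + 1 →
      2 / ((K : ℝ) + 1) ≤ Real.sin (Real.pi * y / (K + 1)) := by
    intro y hy1 hy2
    have h3 : 0 ≤ Real.pi * y / ((K : ℝ) + 1) := by positivity
    have h4 : Real.pi * y / ((K : ℝ) + 1) ≤ Real.pi / 2 := by
      rw [div_le_div_iff₀ hK (by norm_num)]
      nlinarith
    have h5 := Real.mul_le_sin h3 h4
    refine le_trans ?_ h5
    have h6 : 2 / Real.pi * (Real.pi * y / ((K : ℝ) + 1)) = 2 * y / ((K : ℝ) + 1) := by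
      field_simp
    rw [h6]
    apply div_le_div_of_nonneg_right _ hK.le
    linarith
  by_cases hc : 2 * (l : ℝ) ≤ (K : ℝ) + 1
  · exact key l hl hc
  · have h3 := key ((K : ℝ) + 1 - l) (by linarith) (by linarith)
    have h4 : Real.pi * ((K : ℝ) + 1 - l) / (K + 1) = Real.pi - Real.pi * l / (K + 1) := by
      field_simp
    rw [h4, Real.sin_pi_sub] at h3
    exact h3

/-- a direction which is far from perpendicular to `K` given vectors -/
lemma exists_dir (K : ℕ) (S : Finset ℂ) (hS : S.card ≤ K) :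
    ∃ u : ℂ, ‖u‖ = 1 ∧ ∀ v ∈ S, (1 / ((K : ℝ) + 1)) ^ 2 * ‖v‖ ^ 2 ≤
      ((starRingEnd ℂ) u * v).re ^ 2 := by
  by_contra hcon
  have hK : (0 : ℝ) < (K : ℝ) + 1 := by positivity
  obtain ⟨U, hUdef⟩ : ∃ U : ℕ → ℂ, U = fun j : ℕ =>
      Complex.exp (((Real.pi * (j : ℝ) / (K + 1) : ℝ) : ℂ) * Complex.I) := ⟨_, rfl⟩
  have hU : ∀ j, ‖U j‖ = 1 := fun j => by rw [hUdef]; exact Complex.norm_exp_ofReal_mul_I _
  have h : ∀ j : ℕ, ∃ v ∈ S, ((starRingEnd ℂ) (U j) * v).re ^ 2 <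
      (1 / ((K : ℝ) + 1)) ^ 2 * ‖v‖ ^ 2 := by
    intro j
    by_contra h1
    refine hcon ⟨U j, hU j, fun v hv => ?_⟩
    by_contra h2
    exact h1 ⟨v, hv, not_le.1 h2⟩
  choose f hfS hf using h
  obtain ⟨i, hi, j, hj, hij, hfij⟩ := Finset.exists_ne_map_eq_of_card_lt_of_maps_to
    (s := Finset.range (K + 1)) (t := S) (f := f) (by rw [Finset.card_range]; omega)
    (fun j _ => hfS j)
  wlog hlt : i < j generalizing i j
  · exact this j hj i hi hij.symm hfij.symm (by omega)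
  rw [Finset.mem_range] at hi hj
  set v := f i with hv
  have ha := hf i
  have hb := hf j
  rw [← hfij] at hb
  rw [← hv] at ha
  set a := (starRingEnd ℂ) (U i) * v with hadef
  set b := (starRingEnd ℂ) (U j) * v with hbdef
  have hna : ‖a‖ = ‖v‖ := by rw [hadef, norm_mul, RCLike.norm_conj, hU, one_mul]
  have hnb : ‖b‖ = ‖v‖ := by rw [hbdef, norm_mul, RCLike.norm_conj, hU, one_mul]
  have hprod : a * (starRingEnd ℂ) b = Complex.exp (((Real.pi * ((j - i : ℕ) : ℝ) / (K + 1) : ℝ) : ℂ) *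
      Complex.I) * ((‖v‖ ^ 2 : ℝ) : ℂ) := by
    have e1 : (starRingEnd ℂ) (U i) * U j =
        Complex.exp (((Real.pi * ((j - i : ℕ) : ℝ) / (K + 1) : ℝ) : ℂ) * Complex.I) := by
      rw [hUdef]
      simp only
      rw [← Complex.exp_conj, ← Complex.exp_add]
      congr 1
      rw [map_mul, Complex.conj_ofReal, Complex.conj_I]
      have : ((j - i : ℕ) : ℝ) = (j : ℝ) - i := by rw [Nat.cast_sub hlt.le]
      rw [this]
      push_cast
      ring
    have e2 : v * (starRingEnd ℂ) v = ((‖v‖ ^ 2 : ℝ) : ℂ) := by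
      rw [Complex.mul_conj, Complex.normSq_eq_norm_sq]
    rw [hadef, hbdef, map_mul, Complex.conj_conj, ← e1, ← e2]
    ring
  have him : a.im * b.re - a.re * b.im =
      Real.sin (Real.pi * ((j - i : ℕ) : ℝ) / (K + 1)) * ‖v‖ ^ 2 := by
    have h1 := congrArg Complex.im hprod
    rw [Complex.mul_im, Complex.conj_re, Complex.conj_im, Complex.im_mul_ofReal,
      Complex.exp_ofReal_mul_I_im] at h1
    linarith
  have hsin := sin_lower K (j - i) (by omega) (by omega)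
  have hv0 : 0 < ‖v‖ := by
    rcases (norm_nonneg v).lt_or_eq with h1 | h1
    · exact h1
    · rw [← h1] at ha
      nlinarith [sq_nonneg a.re]
  have hre : ∀ c : ℂ, c.re ^ 2 < (1 / ((K : ℝ) + 1)) ^ 2 * ‖v‖ ^ 2 →
      |c.re| < 1 / ((K : ℝ) + 1) * ‖v‖ := by
    intro c hc
    apply abs_lt_of_sq_lt_sq _ (by positivity)
    rw [mul_pow]
    exact hc
  have h1 := hre a ha
  have h2 := hre b hb
  have h3 : |a.im| ≤ ‖v‖ := hna ▸ Complex.abs_im_le_norm a
  have h4 : |b.im| ≤ ‖v‖ := hnb ▸ Complex.abs_im_le_norm b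
  have h5 : a.im * b.re - a.re * b.im ≤ |a.im| * |b.re| + |a.re| * |b.im| := by
    rw [← abs_mul, ← abs_mul]
    have := le_abs_self (a.im * b.re)
    have := neg_le_abs (a.re * b.im)
    linarith
  have h6 : |a.im| * |b.re| ≤ ‖v‖ * |b.re| := mul_le_mul_of_nonneg_right h3 (abs_nonneg _)
  have h7 : |a.re| * |b.im| ≤ |a.re| * ‖v‖ := mul_le_mul_of_nonneg_left h4 (abs_nonneg _)
  have h8 : ‖v‖ * |b.re| < ‖v‖ * (1 / ((K : ℝ) + 1) * ‖v‖) := mul_lt_mul_of_pos_left h2 hv0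
  have h9 : |a.re| * ‖v‖ < 1 / ((K : ℝ) + 1) * ‖v‖ * ‖v‖ := mul_lt_mul_of_pos_right h1 hv0
  have h10 : 2 / ((K : ℝ) + 1) * ‖v‖ ^ 2 ≤
      Real.sin (Real.pi * ((j - i : ℕ) : ℝ) / (K + 1)) * ‖v‖ ^ 2 :=
    mul_le_mul_of_nonneg_right hsin (by positivity)
  have h11 : 2 / ((K : ℝ) + 1) * ‖v‖ ^ 2 = ‖v‖ * (1 / ((K : ℝ) + 1) * ‖v‖) +
      1 / ((K : ℝ) + 1) * ‖v‖ * ‖v‖ := by ring
  linarith

/-- the scaling factor -/
noncomputable def scale (m : ℕ) : ℝ := (1 / (((m * m : ℕ) : ℝ) + 1)) ^ 2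

lemma scale_pos (m : ℕ) : 0 < scale m := by
  unfold scale
  positivity

lemma scale_le_one (m : ℕ) : scale m ≤ 1 := by
  unfold scale
  have hK : (0 : ℝ) ≤ ((m * m : ℕ) : ℝ) := Nat.cast_nonneg _
  have h1 : (1 : ℝ) / (((m * m : ℕ) : ℝ) + 1) ≤ 1 := by
    rw [div_le_one (by positivity)]
    linarith
  have h0 : (0 : ℝ) ≤ 1 / (((m * m : ℕ) : ℝ) + 1) := by positivity
  exact pow_le_one₀ h0 h1

lemma subfamily' {e : ℕ} {ι : Type} (z : ι → ℂ) (w : ι → (Fin e → ℝ)) (m : ℕ) (I : Finset ι)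
    (hI : I.card ≤ m) :
    Adm (fun i => (pt (z i) (w i) : EE e))
      (fun i => (pt ((scale m : ℂ) * (starRingEnd ℂ) (z i)) (w i) : EE e)) (I : Set ι) := by
  classical
  set S : Finset ℂ := (I ×ˢ I).image (fun a => z a.1 - z a.2) with hS
  have hScard : S.card ≤ m * m := by
    calc S.card ≤ (I ×ˢ I).card := Finset.card_image_le
      _ = I.card * I.card := Finset.card_product _ _
      _ ≤ m * m := Nat.mul_le_mul hI hI
  obtain ⟨u, hu1, hgood⟩ := exists_dir (m * m) S hScard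
  have hgood' : ∀ v ∈ S, scale m * ‖v‖ ^ 2 ≤ ((starRingEnd ℂ) u * v).re ^ 2 := hgood
  refine ⟨fun i t => pt (mot (scale m) u t (z i)) (w i), ?_, ?_⟩
  · intro i hi
    refine ⟨?_, ?_, ?_⟩
    · exact ((continuous_pt (w i)).comp (mot_continuous (scale m) u (z i))).continuousOn
    · simp only [mot_start (scale m) u hu1]
    · simp only [mot_end (scale m) u hu1]
  · intro i hi j hj t ht t' ht' htt
    simp only
    rw [pt_sub, pt_sub, mot_sub, mot_sub]
    have hvS : z i - z j ∈ S := by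
      rw [hS, Finset.mem_image]
      exact ⟨(i, j), Finset.mem_product.mpr ⟨hi, hj⟩, rfl⟩
    have hmono := mot_antitone (scale m) u (scale_pos m).le (scale_le_one m) hu1 (z i - z j)
      (hgood' _ hvS) ht ht' htt
    simp only at hmono
    have h1 : ‖(pt (mot (scale m) u t' (z i - z j)) (w i - w j) : EE e)‖ ^ 2 ≤
        ‖(pt (mot (scale m) u t (z i - z j)) (w i - w j) : EE e)‖ ^ 2 := by
      rw [norm_pt_sq, norm_pt_sq]
      have := pow_le_pow_left₀ (norm_nonneg _) hmono 2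
      linarith
    exact le_of_sq_le_sq h1 (norm_nonneg _)

lemma main (e m n : ℕ) (hn : 5 * (m ^ 2 + 1) ^ 2 + 2 * (2 + e) ≤ n) :
    ∃ p q : Fin n → EuclideanSpace ℝ (Fin (2 + e)),
      (∀ I : Finset (Fin n), I.card ≤ m → AdmitsShrinking (2 + e) n p q I) ∧
      ¬ AdmitsShrinking (2 + e) n p q Finset.univ := by
  set lam := scale m with hlamdef
  have hlam : 0 < lam := scale_pos _
  obtain ⟨N, hNn⟩ : ∃ N, n = 1 + (N + e * 2) := ⟨n - 1 - e * 2, by omega⟩
  have hN5 : 5 * (m ^ 2 + 1) ^ 2 ≤ N := by omega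
  have hm1 : 1 ≤ (m ^ 2 + 1) ^ 2 := Nat.one_le_pow _ _ (by omega)
  have hN3 : 3 ≤ N := by omega
  have : NeZero N := ⟨by omega⟩
  have hN0 : (0 : ℝ) < N := by exact_mod_cast (by omega : 0 < N)
  have hlamN : 5 / (N : ℝ) ≤ lam := by
    have h1 : (5 : ℝ) * ((m : ℝ) ^ 2 + 1) ^ 2 ≤ N := by exact_mod_cast hN5
    have h2 : lam = 1 / ((m : ℝ) ^ 2 + 1) ^ 2 := by
      rw [hlamdef, scale]
      push_cast
      rw [div_pow, one_pow]
      congr 2
      ring
    rw [h2, div_le_div_iff₀ hN0 (by positivity)]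
    linarith
  set ρ : ℝ := 2 * Real.pi / N with hρdef
  have hρ0 : 0 < ρ := by positivity
  set L : ℝ := (e + 1) / lam with hLdef
  have he : (0 : ℝ) ≤ e := Nat.cast_nonneg e
  have hL : 0 < L := by positivity
  have hω : (ZMod.toCircle (1 : ZMod N) : ℂ) = Complex.exp (Complex.I * (ρ : ℂ)) := by
    have := ZMod.toCircle_natCast (N := N) 1
    rw [Nat.cast_one] at this
    rw [this, hρdef]
    congr 1
    push_cast
    ring
  have hρ : ‖(1 : ℂ) - (ZMod.toCircle (1 : ZMod N) : ℂ)‖ ≤ ρ := by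
    rw [norm_sub_rev, hω]
    refine Real.norm_exp_I_mul_ofReal_sub_one_le.trans ?_
    rw [Real.norm_eq_abs, abs_of_pos hρ0]
  have hcond : ρ ^ 2 / 2 + e / (4 * L ^ 2) < lam ^ 2 := by
    have hpi : Real.pi ^ 2 < 9.9225 := by
      have h1 := Real.pi_lt_d2
      have h2 := Real.pi_pos
      nlinarith
    have h1 : ρ ^ 2 / 2 ≤ 0.8 * lam ^ 2 := by
      have h3 : (5 / (N : ℝ)) ^ 2 ≤ lam ^ 2 := pow_le_pow_left₀ (by positivity) hlamN 2
      have h4 : ρ ^ 2 / 2 = (2 * Real.pi ^ 2 / 25) * (5 / (N : ℝ)) ^ 2 := by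
        rw [hρdef]
        field_simp
        ring
      rw [h4]
      have h5 : 2 * Real.pi ^ 2 / 25 ≤ 0.8 := by linarith
      calc (2 * Real.pi ^ 2 / 25) * (5 / (N : ℝ)) ^ 2 ≤ 0.8 * (5 / (N : ℝ)) ^ 2 :=
            mul_le_mul_of_nonneg_right h5 (by positivity)
        _ ≤ 0.8 * lam ^ 2 := mul_le_mul_of_nonneg_left h3 (by norm_num)
    have h2 : e / (4 * L ^ 2) ≤ 0.1 * lam ^ 2 := by
      have h3 : (e : ℝ) / (4 * L ^ 2) = (e / (4 * (e + 1) ^ 2)) * lam ^ 2 := by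
        rw [hLdef, div_pow]
        field_simp
      rw [h3]
      apply mul_le_mul_of_nonneg_right _ (by positivity)
      rw [div_le_iff₀ (by positivity)]
      nlinarith [sq_nonneg ((e : ℝ) - 1)]
    have h3 : 0 < lam ^ 2 := by positivity
    linarith
  have hwhole := whole (e := e) hN3 lam L ρ hlam hL hρ hcond
  have hcard : Fintype.card (IX N e) = n := by
    rw [hNn]
    simp [IX, ZMod.card]
  let σ : IX N e ≃ Fin n := Fintype.equivFinOfCardEq hcard
  let φ : EE e ≃ₗᵢ[ℝ] EuclideanSpace ℝ (Fin (2 + e)) :=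
    LinearIsometryEquiv.piLpCongrLeft 2 ℝ ℝ finSumFinEquiv
  refine ⟨fun i => φ (pt (zf N e (σ.symm i)) (wf N e L (σ.symm i))),
    fun i => φ (pt ((lam : ℂ) * (starRingEnd ℂ) (zf N e (σ.symm i))) (wf N e L (σ.symm i))),
    ?_, ?_⟩
  · intro J hJ
    apply adm_to φ σ (fun i : IX N e => (pt (zf N e i) (wf N e L i) : EE e))
      (fun i => pt ((lam : ℂ) * (starRingEnd ℂ) (zf N e i)) (wf N e L i)) J
      ((J.map σ.symm.toEmbedding : Finset (IX N e)) : Set (IX N e))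
    · intro i hi
      rw [Finset.mem_coe, Finset.mem_map]
      exact ⟨i, hi, rfl⟩
    · apply subfamily' (zf N e) (wf N e L) m
      rw [Finset.card_map]
      exact hJ
  · intro h
    apply hwhole
    exact adm_of φ σ (fun i : IX N e => (pt (zf N e i) (wf N e L i) : EE e))
      (fun i => pt ((lam : ℂ) * (starRingEnd ℂ) (zf N e i)) (wf N e L i)) h

/-- **No Helly number for continuous shrinkings, quantitative form.** In every dimension `d ≥ 2`,
for all `m` and all `n ≥ 5 (m² + 1)² + 2 d` there are `n` points `p_i` and `n` points `q_i` of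
`ℝ^d` such that every subfamily of at most `m` of the `p_i` admits a continuous shrinking onto the
corresponding `q_i`, but the whole family does not. In particular no Helly number exists. -/
theorem result :
    (∀ d m n : ℕ, 2 ≤ d → 5 * (m ^ 2 + 1) ^ 2 + 2 * d ≤ n →
      ∃ p q : Fin n → EuclideanSpace ℝ (Fin d),
        (∀ I : Finset (Fin n), I.card ≤ m → AdmitsShrinking d n p q I) ∧
        ¬ AdmitsShrinking d n p q Finset.univ) ∧
    ∀ d : ℕ, 2 ≤ d → ∀ m : ℕ, ¬ IsHellyNumber d m := by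
  have h1 : ∀ d m n : ℕ, 2 ≤ d → 5 * (m ^ 2 + 1) ^ 2 + 2 * d ≤ n →
      ∃ p q : Fin n → EuclideanSpace ℝ (Fin d),
        (∀ I : Finset (Fin n), I.card ≤ m → AdmitsShrinking d n p q I) ∧
        ¬ AdmitsShrinking d n p q Finset.univ := by
    intro d m n hd hn
    obtain ⟨e, rfl⟩ := Nat.exists_eq_add_of_le hd
    exact main e m n hn
  refine ⟨h1, fun d hd m hH => ?_⟩
  obtain ⟨p, q, h2, h3⟩ := h1 d m _ hd le_rfl
  exact h3 (hH _ p q h2)

end Pool.Agent.Results.MP_9d6213_co.PolynomiallyManyPoints
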